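import Pool.Agent.Y386.IR.Stm2

/-!
The clique number of `K_{a/b}[G]` and the lower bound for its imperfection ratio (job IR-LB2),
adapted from the module `Pool.Agent.Y681.IR.LB` of helper681.
-/

set_option autoImplicit false

namespace Pool.Agent.Y585.IR

open Pool.Agent.H692R2 Pool.Agent.Y386.IR Finset

/-- The circular clique `K_{a/b}` has no triangle if `a < 3 b`. -/
lemma card_le_two {a b : ℕ} (hab : a < 3 * b) (M : Finset (Fin a))
    (h : ∀ i ∈ M, ∀ j ∈ M, i ≠ j → CA a b i j) : #M ≤ 2 := by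
  by_contra hM
  push Not at hM
  obtain ⟨i, hi, j, hj, k, hk, hij, hik, hjk⟩ := Finset.two_lt_card.1 hM
  have h1 := h i hi j hj hij
  have h2 := h i hi k hk hik
  have h3 := h j hj k hk hjk
  unfold CA at h1 h2 h3
  have := i.2
  have := j.2
  have := k.2
  omega

/-- Forget the copy. -/
def fg {V : Type} {a : ℕ} (x : V → ℕ) (p : Σ p : Fin a × V, Fin (x p.2)) : Σ v : V, Fin (x v) :=
  ⟨p.1.2, p.2⟩

lemma fg_inj {V : Type} {n : ℕ} (x : V → ℕ) {a b : Σ p : Fin n × V, Fin (x p.2)}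
    (h : a.1.1 = b.1.1) (h' : fg x a = fg x b) : a = b := by
  obtain ⟨⟨i, v⟩, t⟩ := a
  obtain ⟨⟨j, w⟩, t'⟩ := b
  simp only at h
  subst h
  simp only [fg, Sigma.mk.injEq] at h'
  obtain ⟨h1, h2⟩ := h'
  subst h1
  rw [eq_of_heq h2]

theorem clique_le {V : Type} [Fintype V] (G : SimpleGraph V) (p q : ℕ) (hpq : p < 3 * q)
    (x : V → ℕ) : (replicated (lexK p q G) fun z => x z.2).cliqueNum ≤
      2 * (replicated G x).cliqueNum := by
  classical
  obtain ⟨K, hK⟩ := (replicated (lexK p q G) fun z => x z.2).exists_isNClique_cliqueNum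
  rw [← hK.2]
  have h1 : #(K.image fun a => a.1.1) ≤ 2 := by
    apply card_le_two hpq
    intro i hi j hj hij
    simp only [Finset.mem_image] at hi hj
    obtain ⟨a, ha, rfl⟩ := hi
    obtain ⟨b, hb, rfl⟩ := hj
    rcases hK.1 ha hb (fun h => hij (by rw [h])) with ⟨h, _⟩ | ⟨h, _⟩ | ⟨_, h⟩
    · exact absurd (by rw [h]) hij
    · exact absurd h hij
    · exact h
  have h2 : ∀ i ∈ K.image (fun a => a.1.1), #{a ∈ K | a.1.1 = i} ≤
      (replicated G x).cliqueNum := by
    intro i _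
    have hinj : Set.InjOn (fg (a := p) x)
        (({a ∈ K | a.1.1 = i} : Finset (Σ z : Fin p × V, Fin (x z.2))) :
          Set (Σ z : Fin p × V, Fin (x z.2))) := by
      intro a ha b hb hab
      simp only [Finset.coe_filter, Set.mem_setOf_eq] at ha hb
      exact fg_inj x (ha.2.trans hb.2.symm) hab
    rw [← Finset.card_image_of_injOn hinj]
    refine SimpleGraph.IsClique.card_le_cliqueNum (tc := ?_)
    intro a ha b hb hab
    simp only [Finset.coe_image, Set.mem_image, Finset.coe_filter, Set.mem_setOf_eq] at ha hb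
    obtain ⟨a, ⟨ha, hai⟩, rfl⟩ := ha
    obtain ⟨b, ⟨hb, hbi⟩, rfl⟩ := hb
    rcases hK.1 ha hb (fun h => hab (by rw [h])) with ⟨h, _⟩ | ⟨_, h⟩ | ⟨h, _⟩
    · refine Or.inl ⟨?_, hab⟩
      change a.1.2 = b.1.2
      rw [h]
    · exact Or.inr h
    · exact absurd (hai.trans hbi.symm) h
  have h3 := Finset.card_le_mul_card_image (s := K) (f := fun a => a.1.1) _ h2
  calc #K ≤ (replicated G x).cliqueNum * #(K.image fun a => a.1.1) := h3
    _ ≤ (replicated G x).cliqueNum * 2 := Nat.mul_le_mul_left _ h1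
    _ = 2 * (replicated G x).cliqueNum := mul_comm _ _

lemma fracChi_nonneg {V : Type} [Fintype V] (H : SimpleGraph V) : 0 ≤ fracChi H := by
  classical
  refine Real.sInf_nonneg ?_
  rintro s ⟨w, h0, _, _, rfl⟩
  exact Finset.sum_nonneg fun I _ => h0 I

lemma imp_eq_zero {V : Type} [Fintype V] [IsEmpty V] (G : SimpleGraph V) : imp G = 0 := by
  unfold imp
  have : {r : ℝ | ∃ x : V → ℕ, x ≠ 0 ∧
      r = fracChi (replicated G x) / (replicated G x).cliqueNum} = ∅ := by
    rw [Set.eq_empty_iff_forall_notMem]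
    rintro r ⟨x, hx, _⟩
    exact hx (Subsingleton.elim _ _)
  rw [this, Real.sSup_empty]

theorem t_LB2 (hRES : S_RES2) : S_LB2 := by
  intro V _ G p q hq hp hpq
  classical
  rcases isEmpty_or_nonempty V with hV | hV
  · rw [imp_eq_zero G, imp_eq_zero (lexK p q G), mul_zero]
  have hq' : (0 : ℝ) < q := by exact_mod_cast hq
  have hp' : (0 : ℝ) < p := by
    have : 0 < p := by omega
    exact_mod_cast this
  suffices h : imp G ≤ 2 * q / p * imp (lexK p q G) by
    calc (p : ℝ) / (2 * q) * imp G ≤ p / (2 * q) * (2 * q / p * imp (lexK p q G)) :=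
          mul_le_mul_of_nonneg_left h (by positivity)
      _ = imp (lexK p q G) := by field_simp
  refine csSup_le ⟨_, fun _ => 1, fun h => by
    obtain ⟨v⟩ := hV
    simpa using congrFun h v, rfl⟩ ?_
  rintro r ⟨x, hx, rfl⟩
  obtain ⟨v₀, hv₀⟩ : ∃ v, x v ≠ 0 := by
    by_contra h
    push Not at h
    exact hx (funext h)
  let o : Fin p := ⟨0, by omega⟩
  have hx' : (fun z : Fin p × V => x z.2) ≠ 0 := by
    intro h
    exact hv₀ (congrFun h (o, v₀))
  have k1 : p / q * fracChi (replicated G x) ≤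
      fracChi (replicated (lexK p q G) fun z => x z.2) := by
    rw [fracChi_eq (replicated (lexK p q G) fun z => x z.2)]
    exact le_csInf (fracChi_nonempty _) fun s hs => hRES V G p q x s hq hp hs
  have k2 := clique_le G p q hpq x
  have k3 : fracChi (replicated (lexK p q G) fun z => x z.2) /
      (replicated (lexK p q G) fun z => x z.2).cliqueNum ≤ imp (lexK p q G) :=
    le_csSup (imp_bddAbove (lexK p q G)) ⟨_, hx', rfl⟩
  have k4 : 0 < (replicated G x).cliqueNum := by
    have := sum_le_cliqueNum G x {v₀} (by simp)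
    simp only [Finset.sum_singleton] at this
    omega
  have k5 : 0 < (replicated (lexK p q G) fun z => x z.2).cliqueNum := by
    have := sum_le_cliqueNum (lexK p q G) (fun z => x z.2) {(o, v₀)} (by simp)
    simp only [Finset.sum_singleton] at this
    omega
  obtain ⟨a, ha⟩ : ∃ a, a = fracChi (replicated G x) := ⟨_, rfl⟩
  obtain ⟨a', ha'⟩ : ∃ a', a' = fracChi (replicated (lexK p q G) fun z => x z.2) := ⟨_, rfl⟩
  obtain ⟨ω, hω⟩ : ∃ ω, ω = (replicated G x).cliqueNum := ⟨_, rfl⟩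
  obtain ⟨ω', hω'⟩ : ∃ ω', ω' = (replicated (lexK p q G) fun z => x z.2).cliqueNum := ⟨_, rfl⟩
  obtain ⟨t, ht⟩ : ∃ t, t = imp (lexK p q G) := ⟨_, rfl⟩
  have k6 : 0 ≤ a' := by rw [ha']; exact fracChi_nonneg _
  rw [← ha, ← ha'] at k1
  rw [← ha', ← hω', ← ht] at k3
  rw [← hω, ← hω'] at k2
  rw [← hω] at k4
  rw [← hω'] at k5
  rw [← ha, ← hω, ← ht]
  have m1 : (0 : ℝ) < ω := by exact_mod_cast k4
  have m2 : (0 : ℝ) < ω' := by exact_mod_cast k5
  have m3 : (ω' : ℝ) ≤ 2 * ω := by exact_mod_cast k2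
  have m4 : 0 ≤ t := (div_nonneg k6 m2.le).trans k3
  rw [div_le_iff₀ m2] at k3
  rw [div_le_iff₀ m1]
  have m5 : t * ω' ≤ t * (2 * ω) := mul_le_mul_of_nonneg_left m3 m4
  have m6 : (p : ℝ) / q * a ≤ t * (2 * ω) := k1.trans (k3.trans m5)
  have m7 : a = q / p * (p / q * a) := by field_simp
  calc a = q / p * (p / q * a) := m7
    _ ≤ q / p * (t * (2 * ω)) := mul_le_mul_of_nonneg_left m6 (by positivity)
    _ = 2 * q / p * t * ω := by ring

end Pool.Agent.Y585.IR
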